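import Mathlib

/-!
# The Neumann-Poincare operator of a bounded domain with smooth boundary: definitions
-/

set_option autoImplicit false

open MeasureTheory Measure Metric Set Filter
open scoped Topology ContDiff

namespace Pool.Agent.NPD

/-- three-dimensional Euclidean space -/
abbrev E3 : Type := EuclideanSpace ℝ (Fin 3)

/-- `g` is a smooth defining function of `Ω` on the open set `U`: on `U`, the set `Ω` is `{g < 0}`, its
boundary is `{g = 0}`, and the gradient of `g` does not vanish on the boundary. -/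
structure IsDefining (Ω U : Set E3) (g : E3 → ℝ) : Prop where
  isOpen : IsOpen U
  smooth : ContDiffOn ℝ ∞ g U
  inside : ∀ x ∈ U, x ∈ Ω ↔ g x < 0
  boundary : ∀ x ∈ U, x ∈ frontier Ω ↔ g x = 0
  gradient_ne : ∀ x ∈ U, x ∈ frontier Ω → gradient g x ≠ 0

/-- `Ω` is a bounded domain of `ℝ^3` with `C^∞` boundary: a bounded connected open set with a smooth
defining function near each of its boundary points. -/
structure IsSmoothDomain (Ω : Set E3) : Prop where
  isOpen : IsOpen Ω
  isConnected : IsConnected Ω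
  isBounded : Bornology.IsBounded Ω
  smooth : ∀ p ∈ frontier Ω, ∃ U g, p ∈ U ∧ IsDefining Ω U g

/-- `n` is the outward unit normal of `Ω` at the boundary point `p`. -/
def IsOuterNormal (Ω : Set E3) (p n : E3) : Prop :=
  ∃ U g, p ∈ U ∧ IsDefining Ω U g ∧ n = ‖gradient g p‖⁻¹ • gradient g p

/-- the surface measure of the boundary of `Ω`: the two-dimensional Euclidean Hausdorff measure -/
noncomputable def surfaceMeasure (Ω : Set E3) : Measure E3 :=
  (euclideanHausdorffMeasure 2).restrict (frontier Ω)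

/-- the complex Hilbert space `L²(∂Ω)` -/
def L2 (Ω : Set E3) : Type := Lp ℂ 2 (surfaceMeasure Ω)

noncomputable instance instNormedL2 (Ω : Set E3) : NormedAddCommGroup (L2 Ω) :=
  Lp.instNormedAddCommGroup (E := ℂ) (p := 2) (μ := surfaceMeasure Ω)

noncomputable instance instSpaceL2 (Ω : Set E3) : NormedSpace ℂ (L2 Ω) :=
  Lp.instNormedSpace (𝕜 := ℂ) (E := ℂ) (p := 2) (μ := surfaceMeasure Ω)

/-- a representative of an element of `L²(∂Ω)` -/
noncomputable def L2.fn {Ω : Set E3} (φ : L2 Ω) : E3 → ℂ :=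
  AEEqFun.cast (Subtype.val φ : E3 →ₘ[surfaceMeasure Ω] ℂ)

/-- the bounded operators on `L²(∂Ω)` -/
abbrev Op (Ω : Set E3) : Type := L2 Ω →L[ℂ] L2 Ω

/-- the kernel `⟨y - x, ν(y)⟩ / |x - y|^3` -/
noncomputable def kernel (ν : E3 → E3) (x y : E3) : ℝ := inner ℝ (y - x) (ν y) / ‖x - y‖ ^ 3

/-- `K` is the Neumann-Poincare operator on the complex space `L²(∂Ω)`, with the kernel
`⟨y - x, ν(y)⟩ / (4 π |x - y|^3)`; the integrals converge absolutely for almost all `x`. -/
def IsNeumannPoincare (Ω : Set E3) (ν : E3 → E3) (K : Op Ω) : Prop :=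
  ∀ φ : L2 Ω, ∀ᵐ x ∂(surfaceMeasure Ω),
    Integrable (fun y => (kernel ν x y : ℂ) * φ.fn y) (surfaceMeasure Ω) ∧
    (K φ).fn x = (1 / (4 * Real.pi) : ℂ) * ∫ y, (kernel ν x y : ℂ) * φ.fn y ∂(surfaceMeasure Ω)

/-- `K` is compact, its spectrum is real and `M` is the greatest point of the spectrum other than
`1/2`. -/
def IsSpectralMax (Ω : Set E3) (K : Op Ω) (M : ℝ) : Prop :=
  IsCompactOperator K ∧ (∀ z ∈ spectrum ℂ K, z.im = 0) ∧
    IsGreatest {t : ℝ | (t : ℂ) ∈ spectrum ℂ K ∧ t ≠ 1 / 2} M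

end Pool.Agent.NPD
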