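import Pool.Agent.Lib_h26.Defs
import Pool.Agent.Lib_h47np.Defs

/-!
# Bounded domains with smooth boundary

A bounded domain whose boundary is given locally by smooth defining functions has a global smooth
defining function.
-/

set_option autoImplicit false

open Metric Set Filter
open scoped Topology ContDiff

namespace Pool.Agent.NPD

namespace IsDefining

variable {Ω U V : Set E3} {g h : E3 → ℝ} {p : E3}

theorem differentiableAt (hg : IsDefining Ω U g) (hp : p ∈ U) : DifferentiableAt ℝ g p :=
  ((hg.smooth.contDiffAt (hg.isOpen.mem_nhds hp)).differentiableAt (by simp))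

theorem hasDerivAt_line (hg : IsDefining Ω U g) (hp : p ∈ U) (w : E3) :
    HasDerivAt (fun t : ℝ => g (p + t • w)) (inner ℝ (gradient g p) w) 0 := by
  have h1 : HasFDerivAt g (innerSL ℝ (gradient g p)) (p + (0 : ℝ) • w) := by
    rw [zero_smul, add_zero]
    exact (hg.differentiableAt hp).hasGradientAt.hasFDerivAt
  have h2 : HasDerivAt (fun t : ℝ => p + t • w) w 0 := by
    have := ((hasDerivAt_id (0 : ℝ)).smul_const w).const_add p
    simpa using this
  exact h1.comp_hasDerivAt (0 : ℝ) h2

/-- moving in a direction in which one defining function grows, no defining function decreases -/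
theorem inner_nonneg (hg : IsDefining Ω U g) (hh : IsDefining Ω V h) (hU : p ∈ U) (hV : p ∈ V)
    (hp : p ∈ frontier Ω) {w : E3} (hw : 0 < inner ℝ (gradient g p) w) :
    0 ≤ inner ℝ (gradient h p) w := by
  have hg0 : g p = 0 := (hg.boundary p hU).1 hp
  have hh0 : h p = 0 := (hh.boundary p hV).1 hp
  have d1 := (hg.hasDerivAt_line hU w).hasDerivWithinAt (s := Ioi 0)
  have d2 := (hh.hasDerivAt_line hV w).hasDerivWithinAt (s := Ioi 0)
  rw [hasDerivWithinAt_iff_tendsto_slope' (by simp)] at d1 d2
  have e1 : ∀ᶠ t : ℝ in 𝓝[>] 0, 0 < slope (fun t : ℝ => g (p + t • w)) 0 t :=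
    d1.eventually (lt_mem_nhds hw)
  have hc : Tendsto (fun t : ℝ => p + t • w) (𝓝[>] 0) (𝓝 p) := by
    have : Continuous (fun t : ℝ => p + t • w) := by fun_prop
    have h0 := this.tendsto 0
    rw [zero_smul, add_zero] at h0
    exact h0.mono_left nhdsWithin_le_nhds
  have e2 := hc.eventually (hg.isOpen.mem_nhds hU)
  have e3 := hc.eventually (hh.isOpen.mem_nhds hV)
  refine ge_of_tendsto d2 ?_
  filter_upwards [e1, e2, e3, self_mem_nhdsWithin] with t h1 h2 h3 h4
  have ht : 0 < t := h4
  rw [slope_def_field] at h1 ⊢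
  simp only [zero_smul, add_zero, sub_zero, hg0, hh0] at h1 ⊢
  have h5 : 0 < g (p + t • w) := by
    rw [lt_div_iff₀ ht, zero_mul] at h1
    exact h1
  have h6 : p + t • w ∉ Ω := fun h => by
    have := (hg.inside _ h2).1 h
    linarith
  have h7 : 0 ≤ h (p + t • w) := by
    by_contra hcon
    push Not at hcon
    exact h6 ((hh.inside _ h3).2 hcon)
  positivity

/-- the outward unit normal does not depend on the defining function -/
theorem normal_eq (hg : IsDefining Ω U g) (hh : IsDefining Ω V h) (hU : p ∈ U) (hV : p ∈ V)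
    (hp : p ∈ frontier Ω) :
    ‖gradient g p‖⁻¹ • gradient g p = ‖gradient h p‖⁻¹ • gradient h p := by
  have hg0 : 0 < ‖gradient g p‖ := norm_pos_iff.2 (hg.gradient_ne p hU hp)
  have hh0 : 0 < ‖gradient h p‖ := norm_pos_iff.2 (hh.gradient_ne p hV hp)
  set a := ‖gradient g p‖⁻¹ • gradient g p with ha
  set b := ‖gradient h p‖⁻¹ • gradient h p with hb
  have ha1 : ‖a‖ = 1 := by
    rw [ha, norm_smul, norm_inv, norm_norm, inv_mul_cancel₀ hg0.ne']
  have hb1 : ‖b‖ = 1 := by
    rw [hb, norm_smul, norm_inv, norm_norm, inv_mul_cancel₀ hh0.ne']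
  by_contra hne
  have h1 : inner ℝ a b < 1 := inner_lt_one_iff_real_of_norm_eq_one ha1 hb1 |>.2 hne
  have haa : inner ℝ a a = (1 : ℝ) := by rw [real_inner_self_eq_norm_sq, ha1]; norm_num
  have hbb : inner ℝ b b = (1 : ℝ) := by rw [real_inner_self_eq_norm_sq, hb1]; norm_num
  have ea : gradient g p = ‖gradient g p‖ • a := by
    rw [ha, smul_smul, mul_inv_cancel₀ hg0.ne', one_smul]
  have eb : gradient h p = ‖gradient h p‖ • b := by
    rw [hb, smul_smul, mul_inv_cancel₀ hh0.ne', one_smul]
  have h2 : 0 < inner ℝ (gradient g p) (a - b) := by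
    rw [ea, inner_smul_left, inner_sub_right, haa]
    simp only [RCLike.conj_to_real]
    exact mul_pos hg0 (by linarith)
  have h3 := inner_nonneg hg hh hU hV hp h2
  rw [eb, inner_smul_left, inner_sub_right, hbb, real_inner_comm] at h3
  simp only [RCLike.conj_to_real] at h3
  have h4 : 0 ≤ inner ℝ a b - 1 := by
    by_contra hcon
    push Not at hcon
    have := mul_neg_of_pos_of_neg hh0 hcon
    linarith
  linarith

end IsDefining

/-- a product with a bump function supported in `U` is smooth -/
theorem contDiff_mul_bump {U : Set E3} {g χ : E3 → ℝ} (hU : IsOpen U) (hg : ContDiffOn ℝ ∞ g U)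
    (hχ : ContDiff ℝ ∞ χ) (hs : tsupport χ ⊆ U) : ContDiff ℝ ∞ (fun x => χ x * g x) := by
  rw [contDiff_iff_contDiffAt]
  intro x
  by_cases hx : x ∈ U
  · exact hχ.contDiffAt.mul (hg.contDiffAt (hU.mem_nhds hx))
  · have h1 : x ∉ tsupport χ := fun h => hx (hs h)
    have h2 : (fun x => χ x * g x) =ᶠ[𝓝 x] fun _ => 0 := by
      filter_upwards [notMem_tsupport_iff_eventuallyEq.1 h1] with y hy
      rw [hy, Pi.zero_apply, zero_mul]
    exact contDiffAt_const.congr_of_eventuallyEq h2

/-- A bounded domain with smooth boundary has a global defining function. -/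
theorem IsSmoothDomain.exists_global {Ω : Set E3} (hΩ : IsSmoothDomain Ω) :
    ∃ g : E3 → ℝ, IsDefining Ω univ g ∧ Pool.Agent.NP.Dom g := by
  classical
  have hfc : IsCompact (frontier Ω) :=
    Metric.isCompact_of_isClosed_isBounded isClosed_frontier
      (hΩ.isBounded.closure.subset frontier_subset_closure)
  have hdis : ∀ x, x ∈ Ω → x ∉ frontier Ω := fun x hx hf => by
    rw [hΩ.isOpen.frontier_eq] at hf
    exact hf.2 hx
  have hcl : ∀ x, x ∈ closure Ω ↔ x ∈ Ω ∨ x ∈ frontier Ω := by
    intro x
    rw [closure_eq_self_union_frontier]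
    rfl
  choose! U g hpU hUg using hΩ.smooth
  have hball : ∀ p : E3, ∃ r : ℝ, 0 < r ∧ (p ∈ frontier Ω → closedBall p (2 * r) ⊆ U p) := by
    intro p
    by_cases hp : p ∈ frontier Ω
    · obtain ⟨ε, hε, h1⟩ := Metric.nhds_basis_closedBall.mem_iff.1
        ((hUg p hp).isOpen.mem_nhds (hpU p hp))
      exact ⟨ε / 2, by positivity, fun _ => by rwa [mul_div_cancel₀ ε (by norm_num : (2 : ℝ) ≠ 0)]⟩
    · exact ⟨1, one_pos, fun h => absurd h hp⟩
  choose r hr hrU using hball
  let χ : (p : E3) → ContDiffBump p := fun p => ⟨r p, 2 * r p, hr p, by linarith [hr p]⟩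
  obtain ⟨t, htf, htc⟩ := hfc.elim_nhds_subcover (fun p => ball p (r p))
    (fun p _ => ball_mem_nhds p (hr p))
  have hχs : ∀ p, tsupport (χ p) = closedBall p (2 * r p) := fun p => (χ p).tsupport_eq
  have hχU : ∀ p ∈ t, ∀ x, χ p x ≠ 0 → x ∈ U p := by
    intro p hp x hx
    apply hrU p (htf p hp)
    rw [← hχs]
    exact subset_tsupport _ hx
  let G : E3 → ℝ := fun x => ∑ p ∈ t, χ p x * g p x
  have hGs : ContDiff ℝ ∞ G := by
    apply ContDiff.sum
    intro p hp
    apply contDiff_mul_bump (hUg p (htf p hp)).isOpen (hUg p (htf p hp)).smooth (χ p).contDiff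
    rw [hχs]
    exact hrU p (htf p hp)
  obtain ⟨a, ha1, ha2, ha3⟩ := hΩ.isOpen.exists_contDiff_support_eq (n := ⊤)
  obtain ⟨b, hb1, hb2, hb3⟩ :=
    (isClosed_closure (s := Ω)).isOpen_compl.exists_contDiff_support_eq (n := ⊤)
  have ha0 : ∀ x, 0 ≤ a x := fun x => (ha3 (mem_range_self x)).1
  have hb0 : ∀ x, 0 ≤ b x := fun x => (hb3 (mem_range_self x)).1
  have ham : ∀ x, x ∈ Ω ↔ a x ≠ 0 := fun x => by rw [← Function.mem_support, ha1]
  have hbm : ∀ x, x ∉ closure Ω ↔ b x ≠ 0 := fun x => by
    rw [← Function.mem_support, hb1]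
    rfl
  let F : E3 → ℝ := fun x => G x - a x + b x
  have hFs : ContDiff ℝ ∞ F := (hGs.sub ha2).add hb2
  -- the signs
  have s1 : ∀ x ∈ Ω, F x < 0 := by
    intro x hx
    have h1 : G x ≤ 0 := by
      apply Finset.sum_nonpos
      intro p hp
      by_cases h : χ p x = 0
      · rw [h, zero_mul]
      · have h2 := ((hUg p (htf p hp)).inside x (hχU p hp x h)).1 hx
        exact mul_nonpos_of_nonneg_of_nonpos (χ p).nonneg h2.le
    have h2 : 0 < a x := lt_of_le_of_ne (ha0 x) (Ne.symm ((ham x).1 hx))
    have h3 : b x = 0 := by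
      by_contra h
      exact (hbm x).2 h (subset_closure hx)
    simp only [F]
    rw [h3]
    linarith
  have s2 : ∀ x ∈ frontier Ω, F x = 0 := by
    intro x hx
    have h1 : G x = 0 := by
      apply Finset.sum_eq_zero
      intro p hp
      by_cases h : χ p x = 0
      · rw [h, zero_mul]
      · rw [((hUg p (htf p hp)).boundary x (hχU p hp x h)).1 hx, mul_zero]
    have h2 : a x = 0 := by
      by_contra h
      exact hdis x ((ham x).2 h) hx
    have h3 : b x = 0 := by
      by_contra h
      exact (hbm x).2 h (frontier_subset_closure hx)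
    simp only [F]
    rw [h1, h2, h3]
    norm_num
  have s3 : ∀ x, x ∉ closure Ω → 0 < F x := by
    intro x hx
    have hx1 : x ∉ Ω := fun h => hx (subset_closure h)
    have hx2 : x ∉ frontier Ω := fun h => hx (frontier_subset_closure h)
    have h1 : 0 ≤ G x := by
      apply Finset.sum_nonneg
      intro p hp
      by_cases h : χ p x = 0
      · rw [h, zero_mul]
      · have h4 : 0 ≤ g p x := by
          by_contra hcon
          push Not at hcon
          exact hx1 (((hUg p (htf p hp)).inside x (hχU p hp x h)).2 hcon)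
        exact mul_nonneg (χ p).nonneg h4
    have h2 : a x = 0 := by
      by_contra h
      exact hx1 ((ham x).2 h)
    have h3 : 0 < b x := lt_of_le_of_ne (hb0 x) (Ne.symm ((hbm x).1 hx))
    simp only [F]
    rw [h2]
    linarith
  have hins : ∀ x, x ∈ Ω ↔ F x < 0 := by
    intro x
    refine ⟨s1 x, fun h => ?_⟩
    by_contra hx
    by_cases hf : x ∈ frontier Ω
    · rw [s2 x hf] at h
      exact lt_irrefl _ h
    · have : x ∉ closure Ω := fun hc => by
        rcases (hcl x).1 hc with h1 | h1
        · exact hx h1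
        · exact hf h1
      linarith [s3 x this]
  have hbd : ∀ x, x ∈ frontier Ω ↔ F x = 0 := by
    intro x
    refine ⟨s2 x, fun h => ?_⟩
    by_contra hf
    by_cases hx : x ∈ Ω
    · linarith [s1 x hx]
    · have : x ∉ closure Ω := fun hc => by
        rcases (hcl x).1 hc with h1 | h1
        · exact hx h1
        · exact hf h1
      linarith [s3 x this]
  -- the gradient
  have hgr : ∀ q ∈ frontier Ω, gradient F q ≠ 0 := by
    intro q hq
    obtain ⟨p0, hp0, hq0⟩ := mem_iUnion₂.1 (htc hq)
    have hχ1 : χ p0 q = 1 := (χ p0).one_of_mem_closedBall (ball_subset_closedBall hq0)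
    have hqU : q ∈ U p0 := hχU p0 hp0 q (by rw [hχ1]; exact one_ne_zero)
    set v := gradient (g p0) q with hv
    have hv0 : v ≠ 0 := (hUg p0 (htf p0 hp0)).gradient_ne q hqU hq
    have hvv : 0 < inner ℝ v v := real_inner_self_pos.2 hv0
    have hda : HasFDerivAt a (0 : E3 →L[ℝ] ℝ) q := by
      have h1 : DifferentiableAt ℝ a q := (ha2.differentiable (by simp)) q
      have h2 : IsLocalMin a q := by
        refine Eventually.of_forall fun x => ?_
        have : a q = 0 := by
          by_contra h
          exact hdis q ((ham q).2 h) hq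
        rw [this]
        exact ha0 x
      have h3 := h1.hasFDerivAt
      rwa [h2.fderiv_eq_zero] at h3
    have hdb : HasFDerivAt b (0 : E3 →L[ℝ] ℝ) q := by
      have h1 : DifferentiableAt ℝ b q := (hb2.differentiable (by simp)) q
      have h2 : IsLocalMin b q := by
        refine Eventually.of_forall fun x => ?_
        have : b q = 0 := by
          by_contra h
          exact (hbm q).2 h (frontier_subset_closure hq)
        rw [this]
        exact hb0 x
      have h3 := h1.hasFDerivAt
      rwa [h2.fderiv_eq_zero] at h3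
    have hterm : ∀ p ∈ t, HasFDerivAt (fun x => χ p x * g p x) (χ p q • fderiv ℝ (g p) q) q := by
      intro p hp
      by_cases h : q ∈ U p
      · have hg0 : g p q = 0 := ((hUg p (htf p hp)).boundary q h).1 hq
        have h1 : HasFDerivAt (χ p) (fderiv ℝ (χ p) q) q :=
          (((χ p).contDiff (n := ⊤)).differentiable (by simp) q).hasFDerivAt
        have h2 := ((hUg p (htf p hp)).differentiableAt h).hasFDerivAt
        have h3 := h1.mul h2
        rw [hg0, zero_smul, add_zero] at h3
        exact h3
      · have h1 : q ∉ tsupport (χ p) := fun h' => h (by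
          rw [hχs] at h'
          exact hrU p (htf p hp) h')
        have h0 : χ p q = 0 := by
          by_contra h'
          exact h (hχU p hp q h')
        have h2 : (fun x => χ p x * g p x) =ᶠ[𝓝 q] fun _ => 0 := by
          filter_upwards [notMem_tsupport_iff_eventuallyEq.1 h1] with y hy
          rw [hy, Pi.zero_apply, zero_mul]
        rw [h0, zero_smul]
        exact (hasFDerivAt_const (0 : ℝ) q).congr_of_eventuallyEq h2
    have hG : HasFDerivAt G (∑ p ∈ t, χ p q • fderiv ℝ (g p) q) q := HasFDerivAt.fun_sum hterm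
    have hF : HasFDerivAt F ((∑ p ∈ t, χ p q • fderiv ℝ (g p) q) - 0 + 0) q := (hG.sub hda).add hdb
    rw [sub_zero, add_zero] at hF
    have hpos : 0 < (∑ p ∈ t, χ p q • fderiv ℝ (g p) q) v := by
      rw [_root_.sum_apply]
      have hin : ∀ p, DifferentiableAt ℝ (g p) q → fderiv ℝ (g p) q v = inner ℝ (gradient (g p) q) v := by
        intro p hd
        have h1 := hd.hasGradientAt.hasFDerivAt
        rw [h1.fderiv]
        rfl
      have hnn : ∀ p ∈ t, 0 ≤ (χ p q • fderiv ℝ (g p) q) v := by
        intro p hp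
        rw [_root_.smul_apply, smul_eq_mul]
        by_cases h : χ p q = 0
        · rw [h, zero_mul]
        · have hqp := hχU p hp q h
          rw [hin p ((hUg p (htf p hp)).differentiableAt hqp)]
          exact mul_nonneg (χ p).nonneg ((hUg p0 (htf p0 hp0)).inner_nonneg (hUg p (htf p hp))
            hqU hqp hq hvv)
      apply Finset.sum_pos' hnn
      refine ⟨p0, hp0, ?_⟩
      rw [_root_.smul_apply, smul_eq_mul, hχ1, one_mul,
        hin p0 ((hUg p0 (htf p0 hp0)).differentiableAt hqU)]
      exact hvv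
    intro h0
    have h1 : inner ℝ (gradient F q) v = (∑ p ∈ t, χ p q • fderiv ℝ (g p) q) v := by
      have h2 := hF.differentiableAt.hasGradientAt.hasFDerivAt
      have h3 := h2.unique hF
      rw [← h3]
      rfl
    rw [h0, inner_zero_left] at h1
    linarith
  refine ⟨F, ⟨isOpen_univ, hFs.contDiffOn, fun x _ => hins x, fun x _ => hbd x,
    fun x _ hx => hgr x hx⟩, ⟨hFs, fun x hx => hgr x ((hbd x).2 hx), ?_, ?_⟩⟩
  · obtain ⟨R, hR⟩ := hΩ.isBounded.closure.subset_ball (0 : E3)
    refine ⟨R, fun x hx => s3 x fun hc => ?_⟩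
    have := hR hc
    rw [mem_ball_zero_iff] at this
    linarith
  · have hne : (frontier Ω).Nonempty := by
      rw [nonempty_frontier_iff]
      refine ⟨hΩ.isConnected.nonempty, fun h => ?_⟩
      have h1 := hΩ.isBounded
      rw [h] at h1
      exact NormedSpace.unbounded_univ ℝ E3 h1
    obtain ⟨x, hx⟩ := hne
    exact ⟨x, (hbd x).1 hx⟩

/-- the outward normal is the normalised gradient of any defining function -/
theorem IsDefining.eq_of_isOuterNormal {Ω : Set E3} {g : E3 → ℝ} (hg : IsDefining Ω univ g)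
    {p n : E3} (hp : p ∈ frontier Ω) (hn : IsOuterNormal Ω p n) : n = Pool.Agent.NP.nrm g p := by
  obtain ⟨U, h, hU, hh, rfl⟩ := hn
  exact hh.normal_eq hg hU (mem_univ p) hp

end Pool.Agent.NPD
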