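import Pool.Agent.Lib_h47np.Op

/-!
# Spectra of symmetrizable compact operators on `L²`
-/

set_option autoImplicit false

open MeasureTheory Measure Set Filter
open scoped Topology ENNReal

namespace Pool.Agent.NPD

variable {α : Type*} [MeasurableSpace α] {σ : Measure α}

/-- `t` is an eigenvalue -/
def Eig (T : Lp ℝ 2 σ →L[ℝ] Lp ℝ 2 σ) (t : ℝ) : Prop := ∃ f : Lp ℝ 2 σ, f ≠ 0 ∧ T f = t • f

theorem eig_iff (T : Lp ℝ 2 σ →L[ℝ] Lp ℝ 2 σ) (t : ℝ) :
    Module.End.HasEigenvalue (T : Module.End ℝ (Lp ℝ 2 σ)) t ↔ Eig T t := by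
  constructor
  · intro h
    obtain ⟨f, hf⟩ := h.exists_hasEigenvector
    exact ⟨f, hf.2, hf.apply_eq_smul⟩
  · rintro ⟨f, hf0, hf⟩
    exact Module.End.hasEigenvalue_of_hasEigenvector
      (Module.End.hasEigenvector_iff.2 ⟨Module.End.mem_eigenspace_iff.2 hf, hf0⟩)

/-- The spectrum of the complexification of a compact operator which is symmetric for a positive
definite form consists of real numbers, and those which are not zero are eigenvalues. -/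
theorem spectrum_real (T V : Lp ℝ 2 σ →L[ℝ] Lp ℝ 2 σ) (hT : IsCompactOperator T)
    (hsymm : ∀ f h : Lp ℝ 2 σ, inner ℝ (V f) h = inner ℝ (V h) f)
    (hpos : ∀ f : Lp ℝ 2 σ, 0 ≤ inner ℝ (V f) f) (hdef : ∀ f : Lp ℝ 2 σ, inner ℝ (V f) f = 0 → f = 0)
    (hTs : ∀ f h : Lp ℝ 2 σ, inner ℝ (V (T f)) h = inner ℝ (V f) (T h)) {z : ℂ}
    (hz : z ∈ spectrum ℂ (cpx T)) : z.im = 0 ∧ (z ≠ 0 → Eig T z.re) := by
  by_cases hz0 : z = 0
  · exact ⟨by rw [hz0, Complex.zero_im], fun h => absurd hz0 h⟩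
  have h1 := ((isCompactOperator_cpx hT).hasEigenvalue_iff_mem_spectrum hz0).2 hz
  obtain ⟨φ, hφ⟩ := h1.exists_hasEigenvector
  have hφ0 : φ ≠ 0 := hφ.2
  have hφ1 : cpx T φ = z • φ := hφ.apply_eq_smul
  have e1 : T (reP φ) = z.re • reP φ - z.im • imP φ := by
    rw [← reP_cpx, hφ1, reP_smul]
  have e2 : T (imP φ) = z.re • imP φ + z.im • reP φ := by
    rw [← imP_cpx, hφ1, imP_smul]
  have h2 := hTs (reP φ) (imP φ)
  rw [e1, e2] at h2
  simp only [map_sub, map_smul, inner_sub_left, inner_add_right, inner_smul_left,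
    inner_smul_right, RCLike.conj_to_real] at h2
  have h3 : z.im * (inner ℝ (V (reP φ)) (reP φ) + inner ℝ (V (imP φ)) (imP φ)) = 0 := by
    linarith
  have hne : ¬ (reP φ = 0 ∧ imP φ = 0) := by
    rintro ⟨h4, h5⟩
    apply hφ0
    rw [decomp φ, h4, h5, map_zero, smul_zero, add_zero]
  have him : z.im = 0 := by
    rcases mul_eq_zero.1 h3 with h | h
    · exact h
    · exfalso
      have h4 := hpos (reP φ)
      have h5 := hpos (imP φ)
      exact hne ⟨hdef _ (by linarith), hdef _ (by linarith)⟩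
  refine ⟨him, fun _ => ?_⟩
  rw [him, zero_smul, sub_zero] at e1
  rw [him, zero_smul, add_zero] at e2
  by_cases h6 : reP φ = 0
  · exact ⟨imP φ, fun h7 => hne ⟨h6, h7⟩, e2⟩
  · exact ⟨reP φ, h6, e1⟩

/-- eigenvalues of the real operator belong to the spectrum of the complexification -/
theorem mem_spectrum_cpx {T : Lp ℝ 2 σ →L[ℝ] Lp ℝ 2 σ} (hT : IsCompactOperator T) {t : ℝ}
    (ht : t ≠ 0) (h : Eig T t) : (t : ℂ) ∈ spectrum ℂ (cpx T) := by
  rw [← (isCompactOperator_cpx hT).hasEigenvalue_iff_mem_spectrum (by exact_mod_cast ht)]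
  obtain ⟨f, hf0, hf⟩ := h
  have h1 : cpx T (ofR f) = (t : ℂ) • ofR f := by rw [cpx_ofR, hf, ofR_smul]
  have h2 : ofR f ≠ 0 := by
    intro h0
    apply hf0
    rw [← reP_ofR f, h0, map_zero]
  exact Module.End.hasEigenvalue_of_hasEigenvector
    (Module.End.hasEigenvector_iff.2 ⟨Module.End.mem_eigenspace_iff.2 h1, h2⟩)

/-- The positive eigenvalues other than `1/2` have a greatest element. -/
theorem exists_greatest [IsFiniteMeasure σ] (T : Lp ℝ 2 σ →L[ℝ] Lp ℝ 2 σ)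
    (hT : IsCompactOperator T) (hint : ∀ f : Lp ℝ 2 σ, ∫ x, T f x ∂σ = (1 / 2) * ∫ x, f x ∂σ)
    (hhalf : ∀ f : Lp ℝ 2 σ, T f = (1 / 2 : ℝ) • f → ∫ x, f x ∂σ = 0 → f = 0) {t0 : ℝ}
    (h0 : 0 < t0) (h02 : t0 ≠ 1 / 2) (ht0 : Eig T t0) :
    ∃ M : ℝ, t0 ≤ M ∧ IsGreatest {t : ℝ | 0 < t ∧ t ≠ 1 / 2 ∧ Eig T t} M := by
  have hσ : σ ≠ 0 := by
    intro h
    obtain ⟨f, hf0, _⟩ := ht0
    apply hf0
    apply Lp.ext
    have h1 : ae σ = ⊥ := ae_eq_bot.2 h
    unfold Filter.EventuallyEq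
    rw [h1]
    exact Filter.eventually_bot
  have hone : MemLp (fun _ : α => (1 : ℝ)) 2 σ := memLp_const 1
  set one : Lp ℝ 2 σ := hone.toLp with hone'
  have hmean : ∀ f : Lp ℝ 2 σ, inner ℝ one f = ∫ x, f x ∂σ := by
    intro f
    rw [L2.inner_def]
    apply integral_congr_ae
    filter_upwards [hone.coeFn_toLp] with x hx
    rw [hone', hx]
    simp
  set μ : ℝ := ∫ x, one x ∂σ with hμ
  have hμ0 : μ ≠ 0 := by
    have h1 : μ = σ.real univ := by
      rw [hμ, integral_congr_ae hone.coeFn_toLp]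
      simp
    rw [h1]
    exact (measureReal_ne_zero_iff).2 (by simpa using hσ)
  -- the deflation
  set L : Lp ℝ 2 σ →L[ℝ] Lp ℝ 2 σ := (innerSL ℝ one).smulRight ((1 / (2 * μ)) • one) with hL
  have hLapp : ∀ f : Lp ℝ 2 σ, L f = ((∫ x, f x ∂σ) * (1 / (2 * μ))) • one := by
    intro f
    rw [hL, ContinuousLinearMap.smulRight_apply, innerSL_apply_apply, hmean, smul_smul]
  have hLc : IsCompactOperator L := by
    have h1 : IsCompactOperator (innerSL ℝ one : Lp ℝ 2 σ →L[ℝ] ℝ) :=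
      isCompactOperator_of_locallyCompactSpace_dom _
    have h2 := h1.clm_comp
      ((ContinuousLinearMap.id ℝ ℝ).smulRight ((1 / (2 * μ)) • one) : ℝ →L[ℝ] Lp ℝ 2 σ)
    convert! h2 using 1
  set D : Lp ℝ 2 σ →L[ℝ] Lp ℝ 2 σ := T - L with hD
  have hDc : IsCompactOperator D := hT.sub hLc
  have hDapp : ∀ f, D f = T f - L f := fun f => rfl
  have hsub : ∀ f h : Lp ℝ 2 σ, ∫ x, (f - h : Lp ℝ 2 σ) x ∂σ = ∫ x, f x ∂σ - ∫ x, h x ∂σ := by
    intro f h
    rw [← hmean, ← hmean, ← hmean, inner_sub_right]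
  have hsm : ∀ (a : ℝ) (f : Lp ℝ 2 σ), ∫ x, (a • f : Lp ℝ 2 σ) x ∂σ = a * ∫ x, f x ∂σ := by
    intro a f
    rw [← hmean, ← hmean, inner_smul_right]
  have hDint : ∀ f : Lp ℝ 2 σ, ∫ x, D f x ∂σ = 0 := by
    intro f
    rw [hDapp, hsub, hint, hLapp, hsm, ← hμ]
    field_simp
    ring
  -- the eigenvalues
  have hiff : ∀ t : ℝ, t ≠ 0 → (Eig D t ↔ t ≠ 1 / 2 ∧ Eig T t) := by
    intro t ht
    constructor
    · rintro ⟨f, hf0, hf⟩
      have h1 : ∫ x, f x ∂σ = 0 := by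
        have h2 := hDint f
        rw [hf, hsm] at h2
        exact (mul_eq_zero.1 h2).resolve_left ht
      have h2 : T f = t • f := by
        rw [← hf, hDapp, hLapp, h1]
        simp
      refine ⟨?_, f, hf0, h2⟩
      rintro rfl
      exact hf0 (hhalf f h2 h1)
    · rintro ⟨ht2, f, hf0, hf⟩
      have h1 : ∫ x, f x ∂σ = 0 := by
        have h2 := hint f
        rw [hf, hsm] at h2
        have h3 : (t - 1 / 2) * ∫ x, f x ∂σ = 0 := by linarith
        exact (mul_eq_zero.1 h3).resolve_left (sub_ne_zero.2 ht2)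
      refine ⟨f, hf0, ?_⟩
      rw [hDapp, hLapp, h1, hf]
      simp
  have hspec : ∀ t : ℝ, t ≠ 0 → (t ∈ spectrum ℝ D ↔ t ≠ 1 / 2 ∧ Eig T t) := by
    intro t ht
    rw [← hDc.hasEigenvalue_iff_mem_spectrum ht, eig_iff, hiff t ht]
  have hcpt : IsCompact (spectrum ℝ D) := spectrum.isCompact D
  have hmem0 : t0 ∈ spectrum ℝ D := (hspec t0 h0.ne').2 ⟨h02, ht0⟩
  obtain ⟨M, hM⟩ := hcpt.exists_isGreatest ⟨t0, hmem0⟩
  have hM0 : t0 ≤ M := hM.2 hmem0
  refine ⟨M, hM0, ⟨lt_of_lt_of_le h0 hM0, (hspec M (by linarith)).1 hM.1⟩, ?_⟩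
  rintro t ⟨ht1, ht2, ht3⟩
  exact hM.2 ((hspec t ht1.ne').2 ⟨ht2, ht3⟩)

end Pool.Agent.NPD
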