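import Pool.Agent.Lib_h26.Assembly
import Pool.Agent.Lib_h47np.Geo
import Pool.Agent.Lib_h47np.Spec

/-!
# The Neumann-Poincare operator on the complex space `L²`
-/

set_option autoImplicit false

open MeasureTheory Measure Metric Set Filter
open scoped Topology ENNReal

namespace Pool.Agent.NPD

open Pool.Agent.NP (Dom surf kNP nrm Om En Kst pot IsEig SchurBound FinRankApprox)

theorem finRankApprox_swap {α : Type*} [MeasurableSpace α] {σ : Measure α} {k : α → α → ℝ}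
    (h : FinRankApprox σ k) : FinRankApprox σ (fun x y => k y x) := by
  intro ε hε
  obtain ⟨N, a, b, M, ha, hb, haM, hbM, hS⟩ := h ε hε
  refine ⟨N, b, a, M, hb, ha, hbM, haM, ?_⟩
  have h1 := SchurBound_swap hS
  have h2 : (fun x y => k y x - ∑ j, b j x * a j y) = fun x y => k y x - ∑ j, a j y * b j x := by
    funext x y
    congr 1
    exact Finset.sum_congr rfl fun j _ => mul_comm _ _
  rw [h2]
  exact h1

/-- The eigenvalues in the sense of functions and in the sense of operators. -/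
theorem eig_iff_isEig {g : E3 → ℝ} (T : Lp ℝ 2 (surf g) →L[ℝ] Lp ℝ 2 (surf g))
    (hT : ∀ f : Lp ℝ 2 (surf g), (T f : E3 → ℝ) =ᵐ[surf g] Kst g f) (t : ℝ) :
    Eig T t ↔ IsEig g t := by
  constructor
  · rintro ⟨f, hf0, hf⟩
    refine ⟨f, Lp.memLp f, fun h => hf0 ((Lp.eq_zero_iff_ae_eq_zero).2 h), ?_⟩
    have h2 := hT f
    rw [hf] at h2
    filter_upwards [h2, Lp.coeFn_smul t f] with x h3 h4
    rw [← h3, h4]
    rfl
  · rintro ⟨φ, h1, h2, h3⟩
    refine ⟨h1.toLp, fun h => h2 ?_, ?_⟩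
    · have h4 := (Lp.eq_zero_iff_ae_eq_zero).1 h
      exact h1.coeFn_toLp.symm.trans h4
    · apply Lp.ext
      have h5 : Kst g (h1.toLp : Lp ℝ 2 (surf g)) = Kst g φ := by
        ext x
        unfold Kst
        apply integral_congr_ae
        filter_upwards [h1.coeFn_toLp] with y hy
        rw [hy]
      have h6 := hT h1.toLp
      rw [h5] at h6
      filter_upwards [h6, h3, Lp.coeFn_smul t h1.toLp, h1.coeFn_toLp] with x e1 e2 e3 e4
      rw [e1, e2, e3, Pi.smul_apply, e4, smul_eq_mul]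

/-- All that is needed about the Neumann-Poincare operator of the surface `{g = 0}`. -/
theorem exists_operator {g : E3 → ℝ} (hg : Dom g) (hc : IsPreconnected (Om g)) :
    ∃ K : Lp ℂ 2 (surf g) →L[ℂ] Lp ℂ 2 (surf g),
      (∀ φ : Lp ℂ 2 (surf g), ∀ᵐ x ∂(surf g),
        Integrable (fun y => ((kNP g y x : ℝ) : ℂ) * φ y) (surf g) ∧
        K φ x = ∫ y, ((kNP g y x : ℝ) : ℂ) * φ y ∂(surf g)) ∧
      (∀ φ : Lp ℂ 2 (surf g), ∀ᵐ x ∂(surf g),
        Integrable (fun y => ((kNP g x y : ℝ) : ℂ) * φ y) (surf g) ∧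
        ContinuousLinearMap.adjoint K φ x = ∫ y, ((kNP g x y : ℝ) : ℂ) * φ y ∂(surf g)) ∧
      IsCompactOperator K ∧ (∀ z ∈ spectrum ℂ K, z.im = 0) ∧
      ∃ M : ℝ, IsGreatest {t : ℝ | (t : ℂ) ∈ spectrum ℂ K ∧ t ≠ 1 / 2} M ∧ 1 / 6 ≤ M ∧
        (M = 1 / 6 ↔ ∃ (c : E3) (r : ℝ), 0 < r ∧ {x | g x = 0} = sphere c r) := by
  have hfin := hg.isFiniteMeasure_surf
  obtain ⟨C1, hC1, hS1⟩ := hg.schur_Gam
  obtain ⟨C2, hC2, hS2⟩ := hg.schur_kNP
  set VL : Lp ℝ 2 (surf g) →L[ℝ] Lp ℝ 2 (surf g) := hS1.op with hVL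
  set KL : Lp ℝ 2 (surf g) →L[ℝ] Lp ℝ 2 (surf g) := hS2.op with hKL
  have hVae : ∀ f : Lp ℝ 2 (surf g), (VL f : E3 → ℝ) =ᵐ[surf g] pot g f := fun f => hS1.op_ae f
  have hKae : ∀ f : Lp ℝ 2 (surf g), (KL f : E3 → ℝ) =ᵐ[surf g] Kst g f := fun f => hS2.op_ae f
  have hKc : IsCompactOperator KL := hS2.isCompactOperator hg.finRankApprox_kNP
  have hBen : ∀ x y : Lp ℝ 2 (surf g), inner ℝ (VL x) y = En g x y := by
    intro x y
    rw [L2.inner_def]
    unfold En
    apply integral_congr_ae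
    filter_upwards [hVae x] with a ha
    rw [ha]
    simp [mul_comm]
  have hsymm : ∀ x y : Lp ℝ 2 (surf g), inner ℝ (VL x) y = inner ℝ (VL y) x := by
    intro x y
    rw [hBen, hBen]
    exact hg.En_symm (Lp.memLp _) (Lp.memLp _)
  have hpos : ∀ x : Lp ℝ 2 (surf g), 0 ≤ inner ℝ (VL x) x := by
    intro x
    rw [hBen]
    exact hg.En_self_nonneg (Lp.memLp _)
  have hdef : ∀ x : Lp ℝ 2 (surf g), inner ℝ (VL x) x = 0 → x = 0 := by
    intro x hx
    rw [hBen] at hx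
    exact (Lp.eq_zero_iff_ae_eq_zero).2 (hg.ae_eq_zero_of_En_self (Lp.memLp x) hx)
  have hTs : ∀ x y : Lp ℝ 2 (surf g), inner ℝ (VL (KL x)) y = inner ℝ (VL x) (KL y) := by
    intro x y
    rw [hBen, hBen]
    have h1 : En g (KL x) y = En g (Kst g x) y := by
      unfold En
      rw [Pool.Agent.NP.pot_congr (hKae x)]
    have h2 : En g x (KL y) = En g x (Kst g y) := by
      unfold En
      apply integral_congr_ae
      filter_upwards [hKae y] with a ha
      rw [ha]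
    rw [h1, h2]
    exact (hg.En_Kst_symm (Lp.memLp _) (Lp.memLp _)).symm
  have hE : ∀ t : ℝ, Eig KL t ↔ IsEig g t := eig_iff_isEig KL hKae
  -- the operators
  set S : Lp ℂ 2 (surf g) →L[ℂ] Lp ℂ 2 (surf g) := cpx KL with hS
  set K : Lp ℂ 2 (surf g) →L[ℂ] Lp ℂ 2 (surf g) := cpx (SchurBound_swap hS2).op with hK
  have hadj : ContinuousLinearMap.adjoint K = S := by
    apply adjoint_cpx
    intro f h
    exact inner_op (SchurBound_swap hS2) f h
  have hKcpt : IsCompactOperator K := isCompactOperator_cpx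
    ((SchurBound_swap hS2).isCompactOperator (finRankApprox_swap hg.finRankApprox_kNP))
  have hspec : ∀ z : ℂ, z ∈ spectrum ℂ K ↔ star z ∈ spectrum ℂ S := by
    intro z
    have h1 : spectrum ℂ S = star (spectrum ℂ K) := by
      rw [← hadj, ← ContinuousLinearMap.star_eq_adjoint, spectrum.map_star]
    rw [h1, Set.star_mem_star]
  have hreal : ∀ z ∈ spectrum ℂ K, z.im = 0 := by
    intro z hz
    have h1 := (spectrum_real KL VL hKc hsymm hpos hdef hTs ((hspec z).1 hz)).1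
    simpa using h1
  have hreal2 : ∀ t : ℝ, t ≠ 0 → ((t : ℂ) ∈ spectrum ℂ K ↔ IsEig g t) := by
    intro t ht
    rw [hspec, ← hE]
    have hst : star (t : ℂ) = (t : ℂ) := Complex.conj_ofReal t
    rw [hst]
    constructor
    · intro h
      have h1 := (spectrum_real KL VL hKc hsymm hpos hdef hTs h).2 (by exact_mod_cast ht)
      simpa using h1
    · exact mem_spectrum_cpx hKc ht
  have hint : ∀ {k : E3 → E3 → ℝ} {C : ℝ} (_ : SchurBound (surf g) k C) (φ : Lp ℂ 2 (surf g)),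
      ∀ᵐ x ∂(surf g), Integrable (fun y => ((k x y : ℝ) : ℂ) * φ y) (surf g) := by
    intro k C hk φ
    filter_upwards [hk.ae_integrable (Lp.memLp (reP φ)), hk.ae_integrable (Lp.memLp (imP φ))]
      with x i1 i2
    have i3 : Integrable (fun y => ((k x y * reP φ y : ℝ) : ℂ)) (surf g) := i1.ofReal
    have i5 : Integrable (fun y => ((k x y * imP φ y : ℝ) : ℂ)) (surf g) := i2.ofReal
    have i4 := i5.const_mul Complex.I
    refine (i3.add i4).congr ?_
    filter_upwards [reP_ae φ, imP_ae φ] with y j1 j2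
    rw [Pi.add_apply, j1, j2]
    conv_rhs => rw [← Complex.re_add_im (φ y)]
    push_cast
    ring
  -- existence of an eigenvalue
  have hex : ∃ t : ℝ, IsEig g t ∧ t ≠ 1 / 2 ∧ 1 / 6 ≤ t := by
    by_contra hcon
    push Not at hcon
    have H : ∀ t : ℝ, IsEig g t → t ≠ 1 / 2 → t ≤ 1 / 6 := fun t ht ht2 => (hcon t ht ht2).le
    have h1 := (hg.key hc H).1
    have h2 := hcon (1 / 6) h1 (by norm_num)
    exact lt_irrefl _ h2
  obtain ⟨t0, ht0, ht02, ht06⟩ := hex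
  have hintK : ∀ f : Lp ℝ 2 (surf g), ∫ x, KL f x ∂(surf g) = (1 / 2) * ∫ x, f x ∂(surf g) := by
    intro f
    rw [integral_congr_ae (hKae f), hg.integral_Kst (hg.integrable_of_memLp (Lp.memLp f))]
  have hhalf : ∀ f : Lp ℝ 2 (surf g), KL f = (1 / 2 : ℝ) • f → ∫ x, f x ∂(surf g) = 0 → f = 0 := by
    intro f hf hm
    apply (Lp.eq_zero_iff_ae_eq_zero).2
    apply hg.half_eig_zero hc (Lp.memLp f) hm
    have h2 := hKae f
    rw [hf] at h2
    filter_upwards [h2, Lp.coeFn_smul (1 / 2 : ℝ) f] with x h3 h4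
    rw [← h3, h4]
    rfl
  obtain ⟨M, hM0, hM⟩ := exists_greatest KL hKc hintK hhalf (by linarith) ht02 ((hE t0).2 ht0)
  have hM6 : 1 / 6 ≤ M := ht06.trans hM0
  have hMpos : 0 < M := by linarith
  have hMeig : IsEig g M := (hE M).1 hM.1.2.2
  have hMax : ∀ t : ℝ, IsEig g t → t ≠ 1 / 2 → t ≤ M := by
    intro t ht ht2
    by_cases h0 : 0 < t
    · exact hM.2 ⟨h0, ht2, (hE t).2 ht⟩
    · linarith
  refine ⟨K, fun φ => ?_, fun φ => ?_, hKcpt, hreal, M, ⟨⟨?_, hM.1.2.1⟩, ?_⟩, hM6, ?_⟩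
  · filter_upwards [cpx_op_ae (SchurBound_swap hS2) φ, hint (SchurBound_swap hS2) φ] with x h1 h2
    exact ⟨h2, h1⟩
  · rw [hadj]
    filter_upwards [cpx_op_ae hS2 φ, hint hS2 φ] with x h1 h2
    exact ⟨h2, h1⟩
  · exact (hreal2 M hMpos.ne').2 hMeig
  · rintro t ⟨ht, ht2⟩
    by_cases h0 : t = 0
    · rw [h0]
      exact hMpos.le
    · exact hMax t ((hreal2 t h0).1 ht) ht2
  · constructor
    · intro h
      have H : ∀ t : ℝ, IsEig g t → t ≠ 1 / 2 → t ≤ 1 / 6 := fun t ht ht2 => h ▸ hMax t ht ht2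
      obtain ⟨x0, hx0⟩ := hg.field_affine hc (EuclideanSpace.basisFun (Fin 3) ℝ) (hg.key hc H).2
      obtain ⟨r, hr, hS3⟩ := hg.sphere_of_field hx0
      exact ⟨x0, r, hr, hS3⟩
    · rintro ⟨c, r, hr, hS3⟩
      apply le_antisymm _ hM6
      obtain ⟨φ, h1, h2, h3⟩ := hMeig
      exact hg.sphere_eigenvalue_le hr hS3 h1 h2 h3 hM.1.2.1

end Pool.Agent.NPD
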