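import Pool.Agent.Lib_h26.Schur2

/-!
# Complexification of operators on the real space `L²`
-/

set_option autoImplicit false

open MeasureTheory Measure Set Filter
open scoped Topology ENNReal

namespace Pool.Agent.NPD

open Pool.Agent.NP

variable {α : Type*} [MeasurableSpace α] {σ : Measure α}

/-- real functions as complex functions -/
noncomputable def ofR : Lp ℝ 2 σ →L[ℝ] Lp ℂ 2 σ := Complex.ofRealCLM.compLpL 2 σ

/-- the real part -/
noncomputable def reP : Lp ℂ 2 σ →L[ℝ] Lp ℝ 2 σ := Complex.reCLM.compLpL 2 σ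

/-- the imaginary part -/
noncomputable def imP : Lp ℂ 2 σ →L[ℝ] Lp ℝ 2 σ := Complex.imCLM.compLpL 2 σ

theorem ofR_ae (f : Lp ℝ 2 σ) : (ofR f : α → ℂ) =ᵐ[σ] fun x => ((f x : ℝ) : ℂ) :=
  ContinuousLinearMap.coeFn_compLpL Complex.ofRealCLM f

theorem reP_ae (φ : Lp ℂ 2 σ) : (reP φ : α → ℝ) =ᵐ[σ] fun x => (φ x).re :=
  ContinuousLinearMap.coeFn_compLpL Complex.reCLM φ

theorem imP_ae (φ : Lp ℂ 2 σ) : (imP φ : α → ℝ) =ᵐ[σ] fun x => (φ x).im :=
  ContinuousLinearMap.coeFn_compLpL Complex.imCLM φ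

theorem decomp (φ : Lp ℂ 2 σ) : φ = ofR (reP φ) + Complex.I • ofR (imP φ) := by
  apply Lp.ext
  filter_upwards [Lp.coeFn_add (ofR (reP φ)) (Complex.I • ofR (imP φ)),
    Lp.coeFn_smul Complex.I (ofR (imP φ)), ofR_ae (reP φ), ofR_ae (imP φ), reP_ae φ, imP_ae φ]
    with x h1 h2 h3 h4 h5 h6
  rw [h1, Pi.add_apply, h2, Pi.smul_apply, h3, h4, h5, h6, smul_eq_mul, mul_comm]
  exact (Complex.re_add_im _).symm

theorem reP_smul (c : ℂ) (φ : Lp ℂ 2 σ) : reP (c • φ) = c.re • reP φ - c.im • imP φ := by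
  apply Lp.ext
  filter_upwards [reP_ae (c • φ), Lp.coeFn_smul c φ, Lp.coeFn_sub (c.re • reP φ) (c.im • imP φ),
    Lp.coeFn_smul c.re (reP φ), Lp.coeFn_smul c.im (imP φ), reP_ae φ, imP_ae φ]
    with x h1 h2 h3 h4 h5 h6 h7
  rw [h1, h2, h3, Pi.sub_apply, h4, h5, Pi.smul_apply, Pi.smul_apply, Pi.smul_apply, h6, h7]
  simp [Complex.mul_re]

theorem imP_smul (c : ℂ) (φ : Lp ℂ 2 σ) : imP (c • φ) = c.re • imP φ + c.im • reP φ := by
  apply Lp.ext
  filter_upwards [imP_ae (c • φ), Lp.coeFn_smul c φ, Lp.coeFn_add (c.re • imP φ) (c.im • reP φ),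
    Lp.coeFn_smul c.re (imP φ), Lp.coeFn_smul c.im (reP φ), reP_ae φ, imP_ae φ]
    with x h1 h2 h3 h4 h5 h6 h7
  rw [h1, h2, h3, Pi.add_apply, h4, h5, Pi.smul_apply, Pi.smul_apply, Pi.smul_apply, h6, h7]
  simp [Complex.mul_im]

theorem reP_ofR (f : Lp ℝ 2 σ) : reP (ofR f) = f := by
  apply Lp.ext
  filter_upwards [reP_ae (ofR f), ofR_ae f] with x h1 h2
  rw [h1, h2, Complex.ofReal_re]

theorem imP_ofR (f : Lp ℝ 2 σ) : imP (ofR f) = 0 := by
  apply Lp.ext
  filter_upwards [imP_ae (ofR f), ofR_ae f, Lp.coeFn_zero ℝ 2 σ] with x h1 h2 h3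
  rw [h1, h2, h3, Complex.ofReal_im, Pi.zero_apply]

theorem real_smul (a : ℝ) (φ : Lp ℂ 2 σ) : a • φ = (a : ℂ) • φ := by
  apply Lp.ext
  filter_upwards [Lp.coeFn_smul a φ, Lp.coeFn_smul (a : ℂ) φ] with x h1 h2
  rw [h1, h2, Pi.smul_apply, Pi.smul_apply]
  simp

theorem ofR_smul (a : ℝ) (f : Lp ℝ 2 σ) : ofR (a • f) = (a : ℂ) • ofR f := by
  rw [map_smul, real_smul]

theorem cpx_aux (a b : ℂ) (u v : Lp ℂ 2 σ) : (a • u - b • v) + Complex.I • (a • v + b • u) =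
    (a + Complex.I * b) • (u + Complex.I • v) := by
  have hI : Complex.I * Complex.I = -1 := Complex.I_mul_I
  have e2 : (a + Complex.I * b) * Complex.I = Complex.I * a - b := by
    linear_combination b * hI
  rw [smul_add (a + Complex.I * b), smul_smul (a + Complex.I * b), e2]
  module

/-- the complexification of a real operator -/
noncomputable def cpx (T : Lp ℝ 2 σ →L[ℝ] Lp ℝ 2 σ) : Lp ℂ 2 σ →L[ℂ] Lp ℂ 2 σ where
  toFun := fun φ => ofR (T (reP φ)) + Complex.I • ofR (T (imP φ))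
  map_add' := fun φ ψ => by
    simp only [map_add, smul_add]
    abel
  map_smul' := fun c φ => by
    rw [reP_smul, imP_smul]
    simp only [map_add, map_sub, map_smul T, ofR_smul, RingHom.id_apply]
    have h1 := cpx_aux (c.re : ℂ) (c.im : ℂ) (ofR (T (reP φ))) (ofR (T (imP φ)))
    have e1 : (c.re : ℂ) + Complex.I * (c.im : ℂ) = c := by
      rw [mul_comm]
      exact Complex.re_add_im c
    rw [e1] at h1
    exact h1
  cont := by
    have h1 : Continuous fun φ : Lp ℂ 2 σ => ofR (T (reP φ)) := by fun_prop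
    have h2 : Continuous fun φ : Lp ℂ 2 σ => ofR (T (imP φ)) := by fun_prop
    exact h1.add (h2.const_smul Complex.I)

theorem cpx_apply (T : Lp ℝ 2 σ →L[ℝ] Lp ℝ 2 σ) (φ : Lp ℂ 2 σ) :
    cpx T φ = ofR (T (reP φ)) + Complex.I • ofR (T (imP φ)) := rfl

theorem cpx_ofR (T : Lp ℝ 2 σ →L[ℝ] Lp ℝ 2 σ) (f : Lp ℝ 2 σ) : cpx T (ofR f) = ofR (T f) := by
  rw [cpx_apply, reP_ofR, imP_ofR, map_zero, map_zero, smul_zero, add_zero]

theorem reP_cpx (T : Lp ℝ 2 σ →L[ℝ] Lp ℝ 2 σ) (φ : Lp ℂ 2 σ) : reP (cpx T φ) = T (reP φ) := by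
  rw [cpx_apply, map_add, reP_smul, reP_ofR, reP_ofR, imP_ofR]
  simp

theorem imP_cpx (T : Lp ℝ 2 σ →L[ℝ] Lp ℝ 2 σ) (φ : Lp ℂ 2 σ) : imP (cpx T φ) = T (imP φ) := by
  rw [cpx_apply, map_add, imP_smul, reP_ofR, imP_ofR, imP_ofR]
  simp

theorem inner_ofR (f g : Lp ℝ 2 σ) : inner ℂ (ofR f) (ofR g) = ((inner ℝ f g : ℝ) : ℂ) := by
  rw [L2.inner_def, L2.inner_def, ← integral_complex_ofReal]
  apply integral_congr_ae
  filter_upwards [ofR_ae f, ofR_ae g] with x h1 h2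
  rw [h1, h2]
  simp

theorem adjoint_cpx (T T' : Lp ℝ 2 σ →L[ℝ] Lp ℝ 2 σ)
    (h : ∀ f g : Lp ℝ 2 σ, inner ℝ (T f) g = inner ℝ f (T' g)) :
    ContinuousLinearMap.adjoint (cpx T) = cpx T' := by
  symm
  rw [ContinuousLinearMap.eq_adjoint_iff]
  intro φ ψ
  have h' : ∀ f g : Lp ℝ 2 σ, inner ℝ (T' f) g = inner ℝ f (T g) := by
    intro f g
    rw [real_inner_comm, ← h, real_inner_comm]
  rw [cpx_apply, cpx_apply]
  conv_lhs => rw [decomp ψ]
  conv_rhs => rw [decomp φ]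
  simp only [inner_add_left, inner_add_right, inner_smul_left, inner_smul_right, inner_ofR, h']

theorem isCompactOperator_cpx {T : Lp ℝ 2 σ →L[ℝ] Lp ℝ 2 σ} (hT : IsCompactOperator T) :
    IsCompactOperator (cpx T) := by
  have h1 : IsCompactOperator (ofR ∘ T ∘ (reP (σ := σ))) := (hT.comp_clm reP).clm_comp ofR
  have h2 : IsCompactOperator (ofR ∘ T ∘ (imP (σ := σ))) := (hT.comp_clm imP).clm_comp ofR
  exact h1.add (h2.smul Complex.I)

variable [IsFiniteMeasure σ]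

omit [IsFiniteMeasure σ] in
theorem SchurBound_swap {k : α → α → ℝ} {C : ℝ} (hk : SchurBound σ k C) :
    SchurBound σ (fun x y => k y x) C where
  meas := hk.meas.comp measurable_swap
  row := hk.col
  col := hk.row

/-- the adjoint of an integral operator -/
theorem inner_op {k : α → α → ℝ} {C : ℝ} (hk : SchurBound σ k C) (f g : Lp ℝ 2 σ) :
    inner ℝ (hk.op f) g = inner ℝ f ((SchurBound_swap hk).op g) := by
  have h1 := hk.integrable_prod (Lp.memLp f) (Lp.memLp g)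
  have e1 : inner ℝ (hk.op f) g = ∫ x, ∫ y, k x y * f y * g x ∂σ ∂σ := by
    rw [L2.inner_def]
    apply integral_congr_ae
    filter_upwards [hk.op_ae f] with x hx
    rw [hx, integral_mul_const]
    simp [mul_comm]
  have e2 : inner ℝ f ((SchurBound_swap hk).op g) = ∫ y, ∫ x, k x y * f y * g x ∂σ ∂σ := by
    rw [L2.inner_def]
    apply integral_congr_ae
    filter_upwards [(SchurBound_swap hk).op_ae g] with y hy
    rw [hy]
    simp only [RCLike.inner_apply, conj_trivial]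
    rw [mul_comm, ← integral_const_mul]
    congr 1
    ext x
    ring
  rw [e1, e2]
  exact integral_integral_swap h1

/-- the complexification of an integral operator -/
theorem cpx_op_ae {k : α → α → ℝ} {C : ℝ} (hk : SchurBound σ k C) (φ : Lp ℂ 2 σ) :
    (cpx hk.op φ : α → ℂ) =ᵐ[σ] fun x => ∫ y, ((k x y : ℝ) : ℂ) * φ y ∂σ := by
  rw [cpx_apply]
  filter_upwards [Lp.coeFn_add (ofR (hk.op (reP φ))) (Complex.I • ofR (hk.op (imP φ))),
    Lp.coeFn_smul Complex.I (ofR (hk.op (imP φ))), ofR_ae (hk.op (reP φ)), ofR_ae (hk.op (imP φ)),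
    hk.op_ae (reP φ), hk.op_ae (imP φ), hk.ae_integrable (Lp.memLp (reP φ)),
    hk.ae_integrable (Lp.memLp (imP φ))] with x h1 h2 h3 h4 h5 h6 i1 i2
  rw [h1, Pi.add_apply, h2, Pi.smul_apply, h3, h4, h5, h6, smul_eq_mul, ← integral_complex_ofReal,
    ← integral_complex_ofReal, ← integral_const_mul, ← integral_add]
  · apply integral_congr_ae
    filter_upwards [reP_ae φ, imP_ae φ] with y j1 j2
    rw [j1, j2]
    conv_rhs => rw [← Complex.re_add_im (φ y)]
    push_cast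
    ring
  · exact i1.ofReal
  · exact i2.ofReal.const_mul _

end Pool.Agent.NPD
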